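import Pool.Agent.Lib.helper21.Psh

set_option autoImplicit false

namespace Pool.Agent.Results.MP_725b87_an.NotPolar

open Set Metric Filter Topology Pool.Agent.Lib.Helper21 Pool.Agent.Lib.Helper21.Psh

/-- A finite plurisubharmonic function on the unit disc of `ℂ` whose exceptional set is not polar, even locally at `0`. -/
theorem result : ∃ φ : ℂ → EReal, PSH (ball 0 1) φ ∧ (∀ z, φ z ≠ ⊥) ∧
    ∀ (V : Set ℂ) (u : ℂ → EReal), IsOpen V → IsPreconnected V → 0 ∈ V → PSH V u →
      (∀ z ∈ Exc (ball 0 1) φ ∩ V, u z = ⊥) → ∀ z ∈ V, u z = ⊥ := by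
  refine ⟨fun z => (|z.re| : ℝ), ⟨(continuous_coe_real_ereal.comp (by fun_prop)).continuousOn.upperSemicontinuousOn,
    by simp, fun a b _ M => ?_⟩, by simp, fun V u o c h0 h e => seg h o c h0 ?_⟩
  · have k := (Complex.abs_re_le_norm _).trans (Morera.nrm (u := fun e => ((a + e • b).re : ℝ)) (v := fun e => max |(a + e • b).re| M)
      (by fun_prop) one_pos fun e _ => (Complex.norm_real _).trans_le (le_max_left _ _))
    rw [Morera.mv one_pos (P := fun e => (a + e * b) / 2) (Q := fun e => (a + e * b) / 2) (by fun_prop) (by fun_prop)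
      fun e _ _ => by simp [Complex.re_eq_add_conj, map_ofNat, add_div, -Complex.add_re, -Complex.mul_re]] at k
    simp only [← EReal.coe_strictMono.monotone.map_max, EReal.toReal_coe, EReal.coe_le_coe_iff]
    simpa [Real.circleAverage, circleMap, map_ofNat] using k
  · filter_upwards [o.mem_nhds h0, ball_mem_nhds 0 one_pos] with z zV z1 z0
    refine e z ⟨⟨z1, fun ⟨W, q, oW, zW, _, cq, m⟩ => ?_⟩, zV⟩
    have d : DifferentiableAt ℝ (fun t : ℝ => q (z + t)) 0 :=
      .comp 0 (by simpa using (cq.contDiffAt (oW.mem_nhds zW)).differentiableAt (by simp)) (by fun_prop)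
    have n : ∀ᶠ t : ℝ in 𝓝 0, |t| - q (z + t) ≤ -q z := by
      filter_upwards [(show Continuous fun t : ℝ => z + t by fun_prop).continuousAt.eventually
        (oW.mem_nhds (by simpa using zW))] with t ht
      have := m _ ht
      simp only [← EReal.coe_sub, EReal.coe_le_coe_iff] at this
      simpa [z0] using this
    have a := IsLocalMin.hasDerivAt_eq_zero (n.mono fun t ht => by simp; linarith [le_abs_self t])
      (d.hasDerivAt.fun_sub (hasDerivAt_id' 0))
    have b := IsLocalMin.hasDerivAt_eq_zero (n.mono fun t ht => by simp; linarith [neg_abs_le t])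
      (d.hasDerivAt.fun_add (hasDerivAt_id' 0))
    linarith

end Pool.Agent.Results.MP_725b87_an.NotPolar
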